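import Pool.Agent.W500.CS.Stm2

/-!
# Project CQ: the semiconvex potential (`S_POT`)
-/

set_option autoImplicit false

open MeasureTheory Metric Set Filter Topology

namespace Pool.Agent.W917.CQ.POT

open Pool.Agent.H586R3.CT (CT)
open Pool.Agent.W500.CS

theorem local_data (hL : S_LIPR) (hX : S_SCX) (hH : S_HESS) (μ : Measure ℂ) [IsFiniteMeasure μ]
    {u : ℂ → ℝ} (hu : LocallyIntegrable u volume)
    (hw : ∀ ψ : ℂ → ℝ, ContDiff ℝ 1 ψ → HasCompactSupport ψ → ∀ v : ℂ,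
      ∫ z, u z * fderiv ℝ ψ z v = - ∫ z, (CT μ z * v).re * ψ z)
    {Ω : Set ℂ} (hΩ : IsOpen Ω) {z : ℂ} (hz : z ∈ Ω) {r0 : ℝ} (hr0 : 0 < r0) {d : ℕ}
    {A : Fin d → ℂ → ℂ} (hA : ∀ i, DifferentiableOn ℂ (A i) (ball z r0))
    (hne : ∀ i j, i ≠ j → ∀ w ∈ ball z r0, A i w ≠ A j w)
    (hae : ∀ᵐ w : ℂ, w ∈ ball z r0 → ∃ i, CT μ w = A i w) :
    ∃ r > 0, ball z r ⊆ Ω ∧ ∃ (C : ℝ) (L : ℂ → ℝ), ContinuousOn L (ball z r) ∧
      (∀ᵐ w : ℂ, w ∈ ball z r → u w = L w) ∧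
      (∀ᵐ w : ℂ, w ∈ ball z r → HasFDerivAt L (gr (CT μ w)) w) ∧
      ConvexOn ℝ (ball z r) (fun w => L w + C * ‖w‖ ^ 2) := by
  obtain ⟨r1, hr1, hr1Ω⟩ := Metric.isOpen_iff.1 hΩ z hz
  obtain ⟨r2, hr2, h20, h21⟩ : ∃ r2 : ℝ, 0 < r2 ∧ r2 < r0 ∧ r2 < r1 := by
    refine ⟨min r0 r1 / 2, by positivity, ?_, ?_⟩
    · have := min_le_left r0 r1
      linarith
    · have := min_le_right r0 r1
      linarith
  have hsub20 : ball z r2 ⊆ ball z r0 := ball_subset_ball h20.le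
  -- bound
  have hb : ∀ i, ∃ C : ℝ, ∀ w ∈ closedBall z r2, ‖A i w‖ ≤ C := fun i =>
    (isCompact_closedBall z r2).exists_bound_of_continuousOn
      ((hA i).continuousOn.mono (closedBall_subset_ball h20))
  choose Cb hCb using hb
  set M : NNReal := ∑ i, (Cb i).toNNReal with hM
  have hAM : ∀ i, ∀ w ∈ ball z r2, ‖A i w‖ ≤ M := by
    intro i w hw'
    refine (hCb i w (ball_subset_closedBall hw')).trans ((Real.le_coe_toNNReal _).trans ?_)
    rw [hM]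
    have h1 : (Cb i).toNNReal ≤ ∑ i, (Cb i).toNNReal :=
      Finset.single_le_sum (f := fun i => (Cb i).toNNReal) (fun _ _ => zero_le) (Finset.mem_univ i)
    exact_mod_cast h1
  have hCT : ∀ᵐ w : ℂ, w ∈ ball z r2 → ‖CT μ w‖ ≤ M := by
    filter_upwards [hae] with w h1 h2
    obtain ⟨i, hi⟩ := h1 (hsub20 h2)
    rw [hi]
    exact hAM i w h2
  obtain ⟨L, hLip, hLae, hLd⟩ := hL u (CT μ) z r2 M hr2 hu
    (Pool.Agent.H586R3.CT.locallyIntegrable_CT μ) (fun ψ h1 h2 _ v => hw ψ h1 h2 v) hCT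
  obtain ⟨C, hC⟩ := hH μ d A z r2 (r2 / 2) (by linarith) (by linarith)
    (fun i => (hA i).mono hsub20) (fun i j hij w hw' => hne i j hij w (hsub20 hw'))
    (by filter_upwards [hae] with w h1 h2 using h1 (hsub20 h2))
  have hsub3 : ball z (r2 / 2) ⊆ ball z r2 := ball_subset_ball (by linarith)
  refine ⟨r2 / 2, by linarith, (hsub3.trans (ball_subset_ball h21.le)).trans hr1Ω, C / 2, L,
    hLip.continuousOn.mono hsub3, ?_, ?_, ?_⟩
  · filter_upwards [hLae] with w h1 h2 using h1 (hsub3 h2)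
  · filter_upwards [hLd] with w h1 h2 using h1 (hsub3 h2)
  · refine hX L z (r2 / 2) C (by linarith) (hLip.continuousOn.mono hsub3) ?_
    intro v φ hφ hφc hφ0 hφs
    set ψ : ℂ → ℝ := fun y => fderiv ℝ φ y v with hψ
    have hψ1 : ContDiff ℝ 1 ψ := by
      have h1 : ContDiff ℝ 1 (fderiv ℝ φ) := hφ.fderiv_right (by norm_num)
      exact h1.clm_apply contDiff_const
    have hψc : HasCompactSupport ψ := hφc.fderiv_apply ℝ v
    have hψs : tsupport ψ ⊆ ball z (r2 / 2) := (tsupport_fderiv_apply_subset ℝ v).trans hφs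
    have e1 : ∫ z, L z * fderiv ℝ ψ z v = ∫ z, u z * fderiv ℝ ψ z v := by
      refine integral_congr_ae ?_
      filter_upwards [hLae] with w h1
      by_cases hw' : w ∈ tsupport ψ
      · rw [h1 (hsub3 (hψs hw'))]
      · rw [fderiv_of_notMem_tsupport ℝ hw']
        simp
    rw [e1, hw ψ hψ1 hψc v]
    exact hC v φ hφ hφc hφ0 hφs

theorem main : S_POTW → S_LIPR → S_GLUE → S_SCX → S_HESS → S_POT := by
  intro hP hL hG hX hH μ _ hR Ω hΩ hloc
  obtain ⟨u, _, hu, hw⟩ := hP μ hR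
  have key : ∀ z ∈ Ω, ∃ r > 0, ball z r ⊆ Ω ∧ ∃ (C : ℝ) (L : ℂ → ℝ), ContinuousOn L (ball z r) ∧
      (∀ᵐ w : ℂ, w ∈ ball z r → u w = L w) ∧
      (∀ᵐ w : ℂ, w ∈ ball z r → HasFDerivAt L (gr (CT μ w)) w) ∧
      ConvexOn ℝ (ball z r) (fun w => L w + C * ‖w‖ ^ 2) := by
    intro z hz
    obtain ⟨r, hr, d, A, hA, hne, hae⟩ := hloc z hz
    exact local_data hL hX hH μ hu hw hΩ hz hr hA hne hae
  obtain ⟨v, hv, hva⟩ := hG Ω u hΩ (fun z hz => by
    obtain ⟨r, hr, _, C, L, hc, hae, _, _⟩ := key z hz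
    exact ⟨r, hr, L, hc, hae⟩)
  have heq : ∀ (z : ℂ) (r : ℝ) (L : ℂ → ℝ), ball z r ⊆ Ω → ContinuousOn L (ball z r) →
      (∀ᵐ w : ℂ, w ∈ ball z r → u w = L w) → EqOn v L (ball z r) := by
    intro z r L hsub hc hae
    refine Measure.eqOn_open_of_ae_eq (μ := volume) ?_ isOpen_ball (hv.mono hsub) hc
    refine (ae_restrict_iff' measurableSet_ball).2 ?_
    filter_upwards [hva, hae] with w h1 h2 h3
    rw [← h1 (hsub h3), h2 h3]
  refine ⟨v, fun x hx => ?_, ?_⟩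
  · obtain ⟨r, hr, hsub, C, L, hc, hae, _, hcv⟩ := key x hx
    refine ⟨r, hr, C, hsub, hcv.congr fun y hy => ?_⟩
    simp only
    rw [heq x r L hsub hc hae hy]
  · rw [ae_iff]
    refine measure_null_of_locally_null _ fun x hx => ?_
    have hxΩ : x ∈ Ω := by
      by_contra hc
      exact hx fun h => absurd h hc
    obtain ⟨r, hr, hsub, C, L, hc, hae, hd, _⟩ := key x hxΩ
    refine ⟨ball x r ∩ {a | ¬ (a ∈ Ω → HasFDerivAt v (gr (CT μ a)) a)},
      inter_mem (mem_nhdsWithin_of_mem_nhds (ball_mem_nhds x hr)) self_mem_nhdsWithin, ?_⟩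
    have h1 : ∀ᵐ w : ℂ, w ∈ ball x r → HasFDerivAt v (gr (CT μ w)) w := by
      filter_upwards [hd] with w h2 h3
      refine (h2 h3).congr_of_eventuallyEq ?_
      filter_upwards [isOpen_ball.mem_nhds h3] with y hy
      exact heq x r L hsub hc hae hy
    refine measure_mono_null ?_ (ae_iff.1 h1)
    rintro w ⟨h2, h3⟩
    simp only [Set.mem_ofPred_eq, Classical.not_imp] at h3 ⊢
    exact ⟨h2, h3.2⟩

end Pool.Agent.W917.CQ.POT
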